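import Mathlib

/-!
# 2-adic valuations of Stirling numbers of the second kind: the class tree

For fixed `k`, `k! S(n,k) = ± ∑_{j odd ≤ k} C(k,j) j^n` modulo `2^n`.  On a residue class
`n = a + 2^m x` the finite differences
`D i = ∑_{j odd ≤ k} C(k,j) j^a (j^(2^m) - 1)^i`
control the valuation.  A finite tree of classes with certificates then determines the number of
non-constant classes at every deep level.
-/

set_option autoImplicit false

namespace Pool.Agent.Q17.Stir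

open Finset

/-- the class `[n]_t = {j : j ≥ max(n,t), j ≡ n mod t}` -/
def cls (n t : ℕ) : Set ℕ := {j | max n t ≤ j ∧ j ≡ n [MOD t]}

/-- `ν₂(S(j,k))` -/
def nu (k j : ℕ) : ℕ := padicValNat 2 (Nat.stirlingSecond j k)

/-- the set `N_{k,m}` -/
def NN (k m : ℕ) : Set ℕ :=
  {n | k ≤ n ∧ n < k + 2 ^ m ∧ ¬ ∃ c, nu k '' cls n (2 ^ m) = {c}}

/-- `μ_k` exists and equals `μ` -/
def IsMu (k μ : ℕ) : Prop := ∃ M, ∀ m ≥ M, (NN k m).ncard = μ

/-! ### The explicit formula -/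

/-- `∑_j (-1)^(k+j) C(k,j) j^n` -/
def ex (n k : ℕ) : ℤ := ∑ j ∈ range (k + 1), (-1) ^ (k + j) * (k.choose j : ℤ) * (j : ℤ) ^ n

theorem ex_zero_zero : ex 0 0 = 1 := by simp [ex]

theorem ex_zero_succ (k : ℕ) : ex 0 (k + 1) = 0 := by
  have h := Int.alternating_sum_range_choose_of_ne (n := k + 1) (by omega)
  have : ex 0 (k + 1) = (-1) ^ (k + 1) *
      ∑ j ∈ range (k + 1 + 1), ((-1) ^ j * ((k + 1).choose j : ℤ)) := by
    rw [ex, mul_sum]
    refine sum_congr rfl fun j _ => ?_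
    rw [pow_add]; ring
  rw [this, h, mul_zero]

theorem ex_succ_zero (n : ℕ) : ex (n + 1) 0 = 0 := by simp [ex]

theorem ex_succ_succ (n k : ℕ) : ex (n + 1) (k + 1) = (k + 1) * (ex n (k + 1) + ex n k) := by
  have h1 : ex (n + 1) (k + 1) = ∑ j ∈ range (k + 1),
      (-1) ^ (k + j) * ((k + 1 : ℤ) * (k.choose j : ℤ)) * ((j : ℤ) + 1) ^ n := by
    rw [ex, sum_range_succ']
    simp only [Nat.cast_zero, ne_eq, Nat.succ_ne_zero, not_false_eq_true, zero_pow, mul_zero,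
      add_zero]
    refine sum_congr rfl fun j _ => ?_
    have h2 : ((k + 1).choose (j + 1) : ℤ) * ((j : ℤ) + 1) = (k + 1 : ℤ) * (k.choose j : ℤ) := by
      have := Nat.add_one_mul_choose_eq k j
      exact_mod_cast this.symm
    rw [← h2]
    push_cast
    rw [show k + 1 + (j + 1) = (k + j) + 2 by ring, pow_add]
    ring
  have h3 : ex n (k + 1) = (∑ j ∈ range (k + 1),
      (-1) ^ (k + j) * ((k.choose j : ℤ) + (k.choose (j + 1) : ℤ)) * ((j : ℤ) + 1) ^ n)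
      + (-1) ^ (k + 1) * (0 : ℤ) ^ n := by
    rw [ex, sum_range_succ']
    congr 1
    · refine sum_congr rfl fun j _ => ?_
      rw [Nat.choose_succ_succ]
      push_cast
      rw [show k + 1 + (j + 1) = (k + j) + 2 by ring, pow_add]
      ring
    · simp
  have h4 : ex n k = (∑ j ∈ range (k + 1),
      -((-1) ^ (k + j)) * (k.choose (j + 1) : ℤ) * ((j : ℤ) + 1) ^ n)
      + (-1) ^ k * (0 : ℤ) ^ n := by
    have h5 : ex n k = ∑ j ∈ range (k + 1 + 1),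
        (-1) ^ (k + j) * (k.choose j : ℤ) * (j : ℤ) ^ n := by
      rw [sum_range_succ, Nat.choose_succ_self]
      simp [ex]
    rw [h5, sum_range_succ']
    congr 1
    · refine sum_congr rfl fun j _ => ?_
      push_cast
      rw [show k + (j + 1) = (k + j) + 1 by ring, pow_succ]
      ring
    · simp
  rw [h1, h3, h4]
  rw [show (∑ j ∈ range (k + 1),
      (-1 : ℤ) ^ (k + j) * ((k.choose j : ℤ) + (k.choose (j + 1) : ℤ)) * ((j : ℤ) + 1) ^ n)
      + (-1) ^ (k + 1) * (0 : ℤ) ^ n + ((∑ j ∈ range (k + 1),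
      -((-1) ^ (k + j)) * (k.choose (j + 1) : ℤ) * ((j : ℤ) + 1) ^ n)
      + (-1) ^ k * (0 : ℤ) ^ n) = ∑ j ∈ range (k + 1),
      ((-1 : ℤ) ^ (k + j) * ((k.choose j : ℤ) + (k.choose (j + 1) : ℤ)) * ((j : ℤ) + 1) ^ n +
       (-((-1) ^ (k + j)) * (k.choose (j + 1) : ℤ) * ((j : ℤ) + 1) ^ n)) by
    rw [sum_add_distrib, pow_succ]; ring]
  rw [mul_sum]
  refine sum_congr rfl fun j _ => ?_
  ring

theorem ex_eq (n k : ℕ) : ex n k = (k.factorial : ℤ) * (Nat.stirlingSecond n k : ℤ) := by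
  induction n generalizing k with
  | zero =>
    cases k with
    | zero => simp [ex_zero_zero]
    | succ k => simp [ex_zero_succ]
  | succ n ih =>
    cases k with
    | zero => simp [ex_succ_zero]
    | succ k =>
      rw [ex_succ_succ, ih, ih, Nat.stirlingSecond_succ_succ, Nat.factorial_succ]
      push_cast
      ring

/-! ### The odd part -/

/-- odd numbers `≤ k` -/
def od (k : ℕ) : Finset ℕ := (range (k + 1)).filter (fun j => j % 2 = 1)

/-- `∑_{j odd ≤ k} C(k,j) j^x` -/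
def h (k x : ℕ) : ℕ := ∑ j ∈ od k, k.choose j * j ^ x

theorem ex_h (k n : ℕ) : (2 : ℤ) ^ n ∣ ex n k - (-1) ^ (k + 1) * (h k n : ℤ) := by
  have h1 : (-1 : ℤ) ^ (k + 1) * (h k n : ℤ) =
      ∑ j ∈ range (k + 1), if j % 2 = 1 then (-1 : ℤ) ^ (k + 1) * ((k.choose j : ℤ) * (j : ℤ) ^ n)
        else 0 := by
    rw [h, od, ← sum_filter]
    push_cast
    rw [mul_sum]
  rw [h1, ex, ← sum_sub_distrib]
  refine dvd_sum fun j _ => ?_
  split_ifs with hj
  · have : (-1 : ℤ) ^ (k + j) = (-1) ^ (k + 1) := by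
      obtain ⟨t, rfl⟩ : ∃ t, j = 2 * t + 1 := ⟨j / 2, by omega⟩
      rw [show k + (2 * t + 1) = (k + 1) + 2 * t by ring, pow_add, pow_mul]
      simp
    rw [this]
    simp [mul_assoc]
  · rw [sub_zero]
    refine Dvd.dvd.mul_left ?_ _
    refine pow_dvd_pow_of_dvd ?_ n
    exact_mod_cast (Nat.dvd_of_mod_eq_zero (by omega) : 2 ∣ j)

/-- divisibility of `k! S(n,k)` by `2^t`, `t ≤ n`, is read off from `h` -/
theorem dvd_iff_h {k n t : ℕ} (ht : t ≤ n) :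
    2 ^ t ∣ k.factorial * Nat.stirlingSecond n k ↔ 2 ^ t ∣ h k n := by
  have h1 : (2 : ℤ) ^ t ∣ ex n k - (-1) ^ (k + 1) * (h k n : ℤ) :=
    (pow_dvd_pow 2 ht).trans (ex_h k n)
  have h2 : (2 : ℤ) ^ t ∣ ex n k ↔ (2 : ℤ) ^ t ∣ (-1) ^ (k + 1) * (h k n : ℤ) := by
    constructor
    · intro h3
      have := dvd_sub h3 h1
      rwa [sub_sub_cancel] at this
    · intro h3
      have := dvd_add h1 h3
      rwa [sub_add_cancel] at this
  rw [ex_eq] at h2
  have h3 : (2 : ℤ) ^ t ∣ (-1) ^ (k + 1) * (h k n : ℤ) ↔ (2 : ℤ) ^ t ∣ (h k n : ℤ) := by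
    have hu : IsUnit ((-1 : ℤ) ^ (k + 1)) := IsUnit.pow _ (by simp)
    exact hu.dvd_mul_left
  rw [h3] at h2
  exact_mod_cast h2

theorem stir_pos {n k : ℕ} (hk : 1 ≤ k) (hn : k ≤ n) : Nat.stirlingSecond n k ≠ 0 := by
  induction n generalizing k with
  | zero => omega
  | succ n ih =>
    obtain ⟨l, rfl⟩ : ∃ l, k = l + 1 := ⟨k - 1, by omega⟩
    rw [Nat.stirlingSecond_succ_succ]
    rcases Nat.lt_or_ge n (l + 1) with h1 | h1
    · have hl : l = n := by omega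
      subst hl
      rw [Nat.stirlingSecond_self]
      omega
    · have := ih (by omega) h1
      have h3 : 0 < (l + 1) * Nat.stirlingSecond n (l + 1) :=
        Nat.mul_pos (by omega) (Nat.pos_of_ne_zero this)
      omega

theorem dvd_iff_nu {k n t : ℕ} (hk : 1 ≤ k) (hn : k ≤ n) :
    2 ^ t ∣ k.factorial * Nat.stirlingSecond n k ↔ t ≤ padicValNat 2 k.factorial + nu k n := by
  have h1 : k.factorial * Nat.stirlingSecond n k ≠ 0 :=
    Nat.mul_ne_zero (Nat.factorial_ne_zero k) (stir_pos hk hn)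
  rw [padicValNat_dvd_iff_le h1, padicValNat.mul (Nat.factorial_ne_zero k) (stir_pos hk hn)]
  rfl

theorem nu_h {k n t : ℕ} (hk : 1 ≤ k) (hn : k ≤ n) (ht : t ≤ n) :
    2 ^ t ∣ h k n ↔ t ≤ padicValNat 2 k.factorial + nu k n := by
  rw [← dvd_iff_h ht, dvd_iff_nu hk hn]

/-! ### Non-constant classes -/

/-- `ν₂(S(·,k))` is not constant on the class of `r` modulo `2^M` -/
def NC (k M r : ℕ) : Prop := ¬ ∃ c, ∀ j, 2 ^ M ≤ j → j ≡ r [MOD 2 ^ M] → nu k j = c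

theorem not_NC_of {k M r v : ℕ} (hk : 1 ≤ k) (hkM : k ≤ 2 ^ M) (hv : v + 1 ≤ 2 ^ M)
    (H : ∀ j, 2 ^ M ≤ j → j ≡ r [MOD 2 ^ M] → 2 ^ v ∣ h k j ∧ ¬ 2 ^ (v + 1) ∣ h k j) :
    ¬ NC k M r := by
  rw [NC, not_not]
  refine ⟨v - padicValNat 2 k.factorial, fun j hj hjr => ?_⟩
  obtain ⟨h1, h2⟩ := H j hj hjr
  rw [nu_h hk (by omega) (by omega)] at h1 h2
  omega

theorem NC_of {k M r v j₁ j₂ : ℕ} (hk : 1 ≤ k) (hkM : k ≤ 2 ^ M) (hv : v ≤ 2 ^ M)
    (hj₁ : 2 ^ M ≤ j₁) (hj₂ : 2 ^ M ≤ j₂) (h₁ : j₁ ≡ r [MOD 2 ^ M]) (h₂ : j₂ ≡ r [MOD 2 ^ M])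
    (hd : 2 ^ v ∣ h k j₁) (hnd : ¬ 2 ^ v ∣ h k j₂) : NC k M r := by
  rintro ⟨c, hc⟩
  have e1 := hc j₁ hj₁ h₁
  have e2 := hc j₂ hj₂ h₂
  rw [nu_h hk (by omega) (by omega)] at hd hnd
  omega

/-! ### Finite differences on a class -/

/-- `E = j^(2^m) - 1` -/
def E (m j : ℕ) : ℕ := j ^ 2 ^ m - 1

theorem E_succ {m j : ℕ} (hj : j % 2 = 1) : E m j + 1 = j ^ 2 ^ m := by
  have : 0 < j ^ 2 ^ m := Nat.pow_pos (by omega)
  rw [E]; omega

theorem E_dvd {m j : ℕ} (hm : 1 ≤ m) (hj : j % 2 = 1) : 2 ^ (m + 2) ∣ E m j := by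
  induction m, hm using Nat.le_induction with
  | base =>
    have h1 : j ^ 2 ^ 1 % 8 = 1 := by
      have h8 : j % 8 = 1 ∨ j % 8 = 3 ∨ j % 8 = 5 ∨ j % 8 = 7 := by omega
      rw [pow_one, Nat.pow_mod]
      rcases h8 with h | h | h | h <;> rw [h]
    have h2 := E_succ (m := 1) hj
    refine Nat.dvd_of_mod_eq_zero ?_
    norm_num at *
    omega
  | succ m _ ih =>
    obtain ⟨c, hc⟩ := ih
    have h1 := E_succ (m := m) hj
    have h2 := E_succ (m := m + 1) hj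
    have h3 : j ^ 2 ^ (m + 1) = (j ^ 2 ^ m) ^ 2 := by rw [← pow_mul, pow_succ]
    rw [h3, ← h1, hc] at h2
    have h4 : E (m + 1) j = 2 ^ (m + 3) * (c + 2 ^ (m + 1) * c ^ 2) := by
      have : (2 ^ (m + 2) * c + 1) ^ 2 = 2 ^ (m + 3) * (c + 2 ^ (m + 1) * c ^ 2) + 1 := by
        ring
      omega
    rw [h4]
    exact Dvd.intro _ rfl

/-- the finite differences -/
def D (k m a i : ℕ) : ℕ := ∑ j ∈ od k, k.choose j * j ^ a * (E m j) ^ i

theorem mem_od {k j : ℕ} (hj : j ∈ od k) : j % 2 = 1 := (mem_filter.1 hj).2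

theorem D_dvd {k m a i : ℕ} (hm : 1 ≤ m) : 2 ^ ((m + 2) * i) ∣ D k m a i := by
  refine dvd_sum fun j hj => ?_
  rw [pow_mul]
  exact Dvd.dvd.mul_left (pow_dvd_pow_of_dvd (E_dvd hm (mem_od hj)) i) _

theorem expand (k m a y l : ℕ) :
    ∑ j ∈ od k, k.choose j * j ^ (a + 2 ^ m * y) * (E m j) ^ l =
      ∑ i ∈ range (y + 1), y.choose i * D k m a (i + l) := by
  simp_rw [D, mul_sum]
  rw [sum_comm]
  refine sum_congr rfl fun j hj => ?_
  rw [pow_add j a, pow_mul, ← E_succ (mem_od hj), add_pow]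
  rw [mul_sum, mul_sum, sum_mul]
  refine sum_congr rfl fun i _ => ?_
  rw [one_pow, pow_add, Nat.cast_id]
  ring

theorem h_expand (k m a y : ℕ) :
    h k (a + 2 ^ m * y) = ∑ i ∈ range (y + 1), y.choose i * D k m a i := by
  have := expand k m a y 0
  simpa [h] using this

/-- increments -/
theorem h_incr (k m a y d : ℕ) :
    h k (a + 2 ^ m * (y + d)) = h k (a + 2 ^ m * y) +
      ∑ l ∈ range d, d.choose (l + 1) * ∑ i ∈ range (y + 1), y.choose i * D k m a (i + (l + 1)) := by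
  simp_rw [← expand]
  simp_rw [mul_sum]
  rw [sum_comm, h, h, ← sum_add_distrib]
  refine sum_congr rfl fun j hj => ?_
  have h1 : j ^ (a + 2 ^ m * (y + d)) = j ^ (a + 2 ^ m * y) * (E m j + 1) ^ d := by
    rw [E_succ (mem_od hj), ← pow_mul, ← pow_add]; ring_nf
  rw [h1, add_pow, sum_range_succ']
  simp only [one_pow, mul_one, pow_zero, Nat.choose_zero_right, one_mul]
  rw [Nat.cast_one, mul_add, mul_add, mul_one, add_comm, mul_sum, mul_sum]
  congr 1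
  refine sum_congr rfl fun l _ => ?_
  simp only [Nat.cast_id]
  ring

end Pool.Agent.Q17.Stir
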