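import Mathlib
import Pool.Agent.Q17.Stir.Basic

/-!
# Leaves of the class tree
-/

set_option autoImplicit false

namespace Pool.Agent.Q17.Stir

open Finset

/-- certificate for a constant class -/
structure IsC (k m a V : ℕ) : Prop where
  h0 : 2 ^ V ∣ D k m a 0
  h0' : ¬ 2 ^ (V + 1) ∣ D k m a 0
  hi : ∀ i, 1 ≤ i → 2 ^ (V + 1) ∣ D k m a i

/-- certificate for a class containing exactly one (simple) zero -/
structure IsZ (k m a V : ℕ) : Prop where
  h0 : 2 ^ V ∣ D k m a 0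
  h1 : 2 ^ V ∣ D k m a 1
  h1' : ¬ 2 ^ (V + 1) ∣ D k m a 1
  hi : ∀ i, 2 ≤ i → 2 ^ (V + 1 + Nat.log 2 i) ∣ D k m a i

theorem IsC.val {k m a V : ℕ} (H : IsC k m a V) (x : ℕ) :
    2 ^ V ∣ h k (a + 2 ^ m * x) ∧ ¬ 2 ^ (V + 1) ∣ h k (a + 2 ^ m * x) := by
  rw [h_expand, sum_range_succ']
  have h1 : 2 ^ (V + 1) ∣ ∑ i ∈ range x, x.choose (i + 1) * D k m a (i + 1) :=
    dvd_sum fun i _ => Dvd.dvd.mul_left (H.hi _ (by omega)) _
  simp only [Nat.choose_zero_right, one_mul]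
  constructor
  · exact dvd_add ((pow_dvd_pow 2 (by omega)).trans h1) H.h0
  · rw [Nat.dvd_add_right h1]
    exact H.h0'

theorem dvd_choose {e d l : ℕ} (hd : 2 ^ e ∣ d) (hl : 1 ≤ l) :
    2 ^ e ∣ 2 ^ Nat.log 2 l * d.choose l := by
  obtain ⟨l', rfl⟩ : ∃ l', l = l' + 1 := ⟨l - 1, by omega⟩
  rcases Nat.eq_zero_or_pos d with h0 | h0
  · subst h0; simp
  obtain ⟨d', rfl⟩ : ∃ d', d = d' + 1 := ⟨d - 1, by omega⟩
  have h1 := Nat.add_one_mul_choose_eq d' l'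
  -- (d'+1) * choose d' l' = choose (d'+1) (l'+1) * (l'+1)
  obtain ⟨c, hc⟩ := hd
  set v := padicValNat 2 (l' + 1) with hv
  have hv1 : 2 ^ v ∣ l' + 1 := pow_padicValNat_dvd
  obtain ⟨u, hu⟩ := hv1
  have hu2 : ¬ 2 ∣ u := by
    intro h2
    have : 2 ^ (v + 1) ∣ l' + 1 := by
      rw [hu, pow_succ]; exact Nat.mul_dvd_mul_left _ h2
    rw [padicValNat_dvd_iff_le (by omega)] at this
    omega
  have hcop : Nat.Coprime (2 ^ e) u :=
    Nat.Coprime.pow_left _ ((Nat.Prime.coprime_iff_not_dvd Nat.prime_two).2 hu2)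
  have h2 : 2 ^ e ∣ u * (2 ^ v * (d' + 1).choose (l' + 1)) := by
    have : u * (2 ^ v * (d' + 1).choose (l' + 1)) = 2 ^ e * (c * d'.choose l') := by
      rw [← mul_assoc, ← mul_assoc, ← hc, h1, hu]; ring
    rw [this]; exact Dvd.intro _ rfl
  have h3 := hcop.dvd_of_dvd_mul_left h2
  have h4 : v ≤ Nat.log 2 (l' + 1) := padicValNat_le_nat_log _
  exact h3.trans (Nat.mul_dvd_mul_right (pow_dvd_pow 2 h4) _)

/-- the isometry property -/
theorem IsZ.iso {k m a V : ℕ} (H : IsZ k m a V) {e d : ℕ} (y : ℕ) (hd : 2 ^ e ∣ d) :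
    ∃ c, h k (a + 2 ^ m * (y + d)) = h k (a + 2 ^ m * y) + d * D k m a 1 + 2 ^ (V + 1 + e) * c := by
  rcases Nat.eq_zero_or_pos d with h0 | h0
  · subst h0; exact ⟨0, by simp⟩
  obtain ⟨d', rfl⟩ : ∃ d', d = d' + 1 := ⟨d - 1, by omega⟩
  rw [h_incr, sum_range_succ']
  have h1 : 2 ^ (V + 1 + e) ∣ ∑ l ∈ range d', (d' + 1).choose (l + 1 + 1) *
      ∑ i ∈ range (y + 1), y.choose i * D k m a (i + (l + 1 + 1)) := by
    refine dvd_sum fun l _ => ?_
    have h2 : 2 ^ (V + 1 + Nat.log 2 (l + 1 + 1)) ∣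
        ∑ i ∈ range (y + 1), y.choose i * D k m a (i + (l + 1 + 1)) := by
      refine dvd_sum fun i _ => Dvd.dvd.mul_left ?_ _
      refine (pow_dvd_pow 2 ?_).trans (H.hi (i + (l + 1 + 1)) (by omega))
      have : Nat.log 2 (l + 1 + 1) ≤ Nat.log 2 (i + (l + 1 + 1)) := Nat.log_mono_right (by omega)
      omega
    obtain ⟨c, hc⟩ := h2
    rw [hc]
    have h3 := dvd_choose (l := l + 1 + 1) hd (by omega)
    obtain ⟨b, hb⟩ := h3
    refine ⟨b * c, ?_⟩
    calc (d' + 1).choose (l + 1 + 1) * (2 ^ (V + 1 + Nat.log 2 (l + 1 + 1)) * c)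
        = 2 ^ (V + 1) * (2 ^ Nat.log 2 (l + 1 + 1) * (d' + 1).choose (l + 1 + 1)) * c := by
          rw [pow_add 2 (V + 1)]; ring
      _ = 2 ^ (V + 1 + e) * (b * c) := by rw [hb, pow_add 2 (V + 1) e]; ring
  have h2 : 2 ^ (V + 1 + e) ∣ (d' + 1) *
      ∑ i ∈ range y, y.choose (i + 1) * D k m a (i + 1 + 1) := by
    rw [add_comm (V + 1) e, pow_add]
    refine Nat.mul_dvd_mul hd (dvd_sum fun i _ => Dvd.dvd.mul_left ?_ _)
    exact (pow_dvd_pow 2 (by omega)).trans (H.hi (i + 1 + 1) (by omega))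
  obtain ⟨c1, hc1⟩ := h1
  obtain ⟨c2, hc2⟩ := h2
  refine ⟨c1 + c2, ?_⟩
  rw [hc1, zero_add, Nat.choose_one_right, sum_range_succ' _ y]
  simp only [Nat.choose_zero_right, one_mul, zero_add]
  rw [mul_add, hc2]
  ring

/-- consequences of the isometry: divisibility depends on `x mod 2^e` only -/
theorem IsZ.dvd_congr {k m a V : ℕ} (H : IsZ k m a V) {e x y t : ℕ} (hxy : x ≡ y [MOD 2 ^ e])
    (ht : t ≤ V + e) : 2 ^ t ∣ h k (a + 2 ^ m * x) ↔ 2 ^ t ∣ h k (a + 2 ^ m * y) := by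
  wlog hle : y ≤ x generalizing x y
  · exact (this hxy.symm (by omega)).symm
  have hd : 2 ^ e ∣ x - y := (Nat.modEq_iff_dvd' hle).1 hxy.symm
  obtain ⟨c, hc⟩ := H.iso y hd
  rw [show y + (x - y) = x by omega] at hc
  have h1 : 2 ^ t ∣ (x - y) * D k m a 1 + 2 ^ (V + 1 + e) * c := by
    refine dvd_add ?_ ?_
    · refine (pow_dvd_pow 2 ht).trans ?_
      rw [add_comm V e, pow_add]
      exact Nat.mul_dvd_mul hd H.h1
    · exact Dvd.dvd.mul_right (pow_dvd_pow 2 (by omega)) _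
  rw [hc, add_assoc, Nat.dvd_add_left h1]

/-- the two children of a class are told apart -/
theorem IsZ.child {k m a V : ℕ} (H : IsZ k m a V) {e x : ℕ}
    (hx : 2 ^ (V + e) ∣ h k (a + 2 ^ m * x)) :
    (2 ^ (V + e + 1) ∣ h k (a + 2 ^ m * (x + 2 ^ e)) ↔
      ¬ 2 ^ (V + e + 1) ∣ h k (a + 2 ^ m * x)) := by
  obtain ⟨c, hc⟩ := H.iso x (dvd_refl (2 ^ e))
  obtain ⟨u, hu⟩ := hx
  obtain ⟨w, hw⟩ := H.h1
  have hw2 : w % 2 = 1 := by
    by_contra hcon
    apply H.h1'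
    rw [hw, pow_succ]
    exact Nat.mul_dvd_mul_left _ (by omega)
  have e1 : h k (a + 2 ^ m * (x + 2 ^ e)) = 2 ^ (V + e) * (u + w + 2 * c) := by
    rw [hc, hu, hw, show V + 1 + e = V + e + 1 by ring, pow_succ, pow_add]; ring
  rw [e1, hu, pow_succ]
  have hp : 0 < 2 ^ (V + e) := by positivity
  rw [Nat.mul_dvd_mul_iff_left hp, Nat.mul_dvd_mul_iff_left hp]
  omega

theorem IsZ.base {k m a V : ℕ} (H : IsZ k m a V) (x : ℕ) : 2 ^ V ∣ h k (a + 2 ^ m * x) := by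
  have h1 := H.dvd_congr (e := 0) (x := x) (y := 0) (t := V) (by
    rw [pow_zero]; exact Nat.modEq_one) (by omega)
  rw [h1]
  rw [h_expand]
  simpa using H.h0

/-- exactly one class modulo `2^e` -/
theorem IsZ.existsUnique {k m a V : ℕ} (H : IsZ k m a V) (e : ℕ) :
    ∃ x, x < 2 ^ e ∧ 2 ^ (V + e) ∣ h k (a + 2 ^ m * x) ∧
      ∀ y, 2 ^ (V + e) ∣ h k (a + 2 ^ m * y) → y ≡ x [MOD 2 ^ e] := by
  induction e with
  | zero =>
    refine ⟨0, by simp, ?_, fun y _ => ?_⟩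
    · simpa using H.base 0
    · rw [pow_zero]; exact Nat.modEq_one
  | succ e ih =>
    obtain ⟨x, hx, hd, hu⟩ := ih
    have hch := H.child hd
    have key : ∀ y, 2 ^ (V + (e + 1)) ∣ h k (a + 2 ^ m * y) →
        (y ≡ x [MOD 2 ^ (e + 1)] ∨ y ≡ x + 2 ^ e [MOD 2 ^ (e + 1)]) := by
      intro y hy
      have h1 := hu y ((pow_dvd_pow 2 (by omega)).trans hy)
      -- y ≡ x mod 2^e
      have h2 : y % 2 ^ (e + 1) = x ∨ y % 2 ^ (e + 1) = x + 2 ^ e := by
        have h3 : y % 2 ^ e = x := by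
          have := h1
          rw [Nat.ModEq, Nat.mod_eq_of_lt hx] at this
          exact this
        have h4 : y % 2 ^ (e + 1) % 2 ^ e = y % 2 ^ e :=
          Nat.mod_mod_of_dvd _ (pow_dvd_pow 2 (by omega))
        have h5 : y % 2 ^ (e + 1) < 2 ^ (e + 1) := Nat.mod_lt _ (by positivity)
        have h6 := Nat.div_add_mod (y % 2 ^ (e + 1)) (2 ^ e)
        rw [h4, h3] at h6
        have h7 : y % 2 ^ (e + 1) / 2 ^ e < 2 := by
          rw [Nat.div_lt_iff_lt_mul (by positivity)]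
          have h9 : 2 ^ (e + 1) = 2 * 2 ^ e := by ring
          omega
        interval_cases h8 : y % 2 ^ (e + 1) / 2 ^ e
        · left; omega
        · right; omega
      have hx2 : x < 2 ^ (e + 1) := lt_of_lt_of_le hx (Nat.pow_le_pow_right (by norm_num) (by omega))
      have hx3 : x + 2 ^ e < 2 ^ (e + 1) := by rw [pow_succ]; omega
      rcases h2 with h2 | h2
      · left; rw [Nat.ModEq, h2, Nat.mod_eq_of_lt hx2]
      · right; rw [Nat.ModEq, h2, Nat.mod_eq_of_lt hx3]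
    by_cases hc : 2 ^ (V + e + 1) ∣ h k (a + 2 ^ m * x)
    · refine ⟨x, lt_of_lt_of_le hx (Nat.pow_le_pow_right (by norm_num) (by omega)), hc,
        fun y hy => ?_⟩
      rcases key y hy with h1 | h1
      · exact h1
      · exfalso
        have h2 := (H.dvd_congr h1 (t := V + e + 1) (by omega)).1 hy
        exact (hch.1 h2) hc
    · refine ⟨x + 2 ^ e, by rw [pow_succ]; omega, hch.2 hc, fun y hy => ?_⟩
      rcases key y hy with h1 | h1
      · exfalso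
        exact hc ((H.dvd_congr h1 (t := V + e + 1) (by omega)).1 hy)
      · exact h1

end Pool.Agent.Q17.Stir
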