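import Mathlib
import Pool.Agent.Q17.Stir.Leaf

/-!
# Counting the non-constant classes with a finite tree
-/

set_option autoImplicit false

namespace Pool.Agent.Q17.Stir

open Finset Classical

/-- number of classes modulo `2^M` inside the class of `a` modulo `2^m` that are not constant -/
noncomputable def cnt (k M m a : ℕ) : ℕ :=
  ((range (2 ^ M)).filter (fun r => r % 2 ^ m = a ∧ NC k M r)).card

theorem cnt_split {k M m a : ℕ} (ha : a < 2 ^ m) :
    cnt k M m a = cnt k M (m + 1) a + cnt k M (m + 1) (a + 2 ^ m) := by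
  rw [cnt, cnt, cnt, ← card_union_of_disjoint]
  · congr 1
    ext r
    simp only [mem_filter, mem_union, mem_range]
    have h1 : r % 2 ^ m = a ↔ r % 2 ^ (m + 1) = a ∨ r % 2 ^ (m + 1) = a + 2 ^ m := by
      have h4 : r % 2 ^ (m + 1) % 2 ^ m = r % 2 ^ m :=
        Nat.mod_mod_of_dvd _ (pow_dvd_pow 2 (by omega))
      have h5 : r % 2 ^ (m + 1) < 2 ^ (m + 1) := Nat.mod_lt _ (by positivity)
      have h9 : 2 ^ (m + 1) = 2 * 2 ^ m := by ring
      constructor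
      · intro h
        rw [h] at h4
        have h6 := Nat.div_add_mod (r % 2 ^ (m + 1)) (2 ^ m)
        rw [h4] at h6
        have h7 : r % 2 ^ (m + 1) / 2 ^ m < 2 := by
          rw [Nat.div_lt_iff_lt_mul (by positivity)]
          omega
        interval_cases h8 : r % 2 ^ (m + 1) / 2 ^ m
        · left; omega
        · right; omega
      · rintro (h | h)
        · rw [← h4, h, Nat.mod_eq_of_lt ha]
        · rw [← h4, h, Nat.add_mod_right, Nat.mod_eq_of_lt ha]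
    rw [h1]
    tauto
  · rw [Finset.disjoint_left]
    intro r h1 h2
    simp only [mem_filter] at h1 h2
    have : 0 < 2 ^ m := by positivity
    omega

theorem modEq_of_le {M m j r a : ℕ} (hmM : m ≤ M) (hj : j ≡ r [MOD 2 ^ M])
    (hr : r % 2 ^ m = a) : j % 2 ^ m = a := by
  have h1 : j ≡ r [MOD 2 ^ m] := hj.of_dvd (pow_dvd_pow 2 hmM)
  rw [← hr]; exact h1

theorem cnt_C {k m a V : ℕ} (hk : 1 ≤ k) (H : IsC k m a V) :
    ∃ M₀, ∀ M, M₀ ≤ M → cnt k M m a = 0 := by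
  refine ⟨k + V + 1 + m, fun M hM => ?_⟩
  have hM2 : M < 2 ^ M := Nat.lt_two_pow_self
  rw [cnt, card_eq_zero, filter_eq_empty_iff]
  rintro r - ⟨hr, hNC⟩
  refine not_NC_of hk (by omega) (v := V) (by omega) (fun j hj hjr => ?_) hNC
  have h1 : j % 2 ^ m = a := modEq_of_le (by omega) hjr hr
  have h2 := Nat.div_add_mod j (2 ^ m)
  rw [h1, add_comm] at h2
  rw [← h2]
  exact H.val _

/-- an element of a deep class is `a + 2^m y` -/
theorem elem_form {m a M x j : ℕ} (hm : m ≤ M) (ha : a < 2 ^ m) (hj : 2 ^ M ≤ j)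
    (hjr : j ≡ a + 2 ^ m * x [MOD 2 ^ M]) :
    ∃ y, j = a + 2 ^ m * y ∧ y ≡ x [MOD 2 ^ (M - m)] := by
  have hpm : 0 < 2 ^ m := by positivity
  have hMm : 2 ^ M = 2 ^ m * 2 ^ (M - m) := by
    rw [← pow_add]; congr 1; omega
  have haj : a + 2 ^ m * x ≡ j [MOD 2 ^ m] := (hjr.of_dvd (pow_dvd_pow 2 hm)).symm
  have haj2 : a ≡ j [MOD 2 ^ m] := by
    have : a + 2 ^ m * x ≡ a [MOD 2 ^ m] := by
      rw [Nat.ModEq, Nat.add_mul_mod_self_left]
    exact this.symm.trans haj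
  have haj3 : a ≤ j := by
    have := Nat.pow_le_pow_right (n := 2) (by norm_num) hm
    omega
  obtain ⟨y, hy⟩ : 2 ^ m ∣ j - a := (Nat.modEq_iff_dvd' haj3).1 haj2
  have hy2 : j = a + 2 ^ m * y := by omega
  refine ⟨y, hy2, ?_⟩
  rw [hy2, hMm] at hjr
  exact Nat.ModEq.mul_left_cancel' hpm.ne' (Nat.ModEq.add_left_cancel' a hjr)

theorem NC_iff_Z {k m a V M : ℕ} (hk : 1 ≤ k) (ha : a < 2 ^ m) (H : IsZ k m a V)
    (hM : k + V + 2 + m ≤ M) (x : ℕ) :
    NC k M (a + 2 ^ m * x) ↔ 2 ^ (V + (M - m)) ∣ h k (a + 2 ^ m * x) := by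
  have hM2 : M < 2 ^ M := Nat.lt_two_pow_self
  have hM3 : V + (M - m) + 1 ≤ 2 ^ M := by
    have h1 : M - 1 < 2 ^ (M - 1) := Nat.lt_two_pow_self
    have h2 : 2 ^ M = 2 * 2 ^ (M - 1) := by
      conv_lhs => rw [show M = (M - 1) + 1 by omega]
      ring
    omega
  have hMm : 2 ^ M = 2 ^ m * 2 ^ (M - m) := by
    rw [← pow_add]; congr 1; omega
  constructor
  · intro hNC
    by_contra hnd
    have hex : ∃ v, 2 ^ v ∣ h k (a + 2 ^ m * x) ∧ ¬ 2 ^ (v + 1) ∣ h k (a + 2 ^ m * x) ∧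
        v + 1 ≤ V + (M - m) := by
      have hex0 : ∃ t, ¬ 2 ^ t ∣ h k (a + 2 ^ m * x) := ⟨_, hnd⟩
      obtain ⟨t, ht, hmin⟩ : ∃ t, ¬ 2 ^ t ∣ h k (a + 2 ^ m * x) ∧
          ∀ s, s < t → 2 ^ s ∣ h k (a + 2 ^ m * x) :=
        ⟨Nat.find hex0, Nat.find_spec hex0, fun s hs => not_not.1 (Nat.find_min hex0 hs)⟩
      have ht0 : t ≠ 0 := by
        intro h0
        rw [h0] at ht
        simp at ht
      have hle : t ≤ V + (M - m) := by
        by_contra hcon
        exact hnd (hmin _ (by omega))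
      refine ⟨t - 1, hmin _ (by omega), ?_, by omega⟩
      rw [show t - 1 + 1 = t by omega]; exact ht
    obtain ⟨v, hv1, hv2, hv3⟩ := hex
    refine not_NC_of hk (by omega) (v := v) (by omega) (fun j hj hjr => ?_) hNC
    obtain ⟨y, hy, hyx⟩ := elem_form (by omega) ha hj hjr
    rw [hy, H.dvd_congr hyx (t := v) (by omega), H.dvd_congr hyx (t := v + 1) (by omega)]
    exact ⟨hv1, hv2⟩
  · intro hd
    -- two elements of the class
    have hx1 : 2 ^ (V + (M - m)) ∣ h k (a + 2 ^ m * (x + 2 ^ (M - m))) := by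
      rw [H.dvd_congr (x := x + 2 ^ (M - m)) (y := x) (e := M - m) (by simp) (le_refl _)]
      exact hd
    have hch := H.child hx1
    have f1 : a + 2 ^ m * (x + 2 ^ (M - m)) = a + 2 ^ m * x + 2 ^ M := by
      rw [hMm]; ring
    have f2 : a + 2 ^ m * (x + 2 ^ (M - m) + 2 ^ (M - m)) = a + 2 ^ m * x + 2 ^ M + 2 ^ M := by
      rw [hMm]; ring
    have g1 : a + 2 ^ m * x + 2 ^ M ≡ a + 2 ^ m * x [MOD 2 ^ M] := by simp
    have g2 : a + 2 ^ m * x + 2 ^ M + 2 ^ M ≡ a + 2 ^ m * x [MOD 2 ^ M] := by simp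
    rw [f1, f2] at hch
    by_cases hc : 2 ^ (V + (M - m) + 1) ∣ h k (a + 2 ^ m * x + 2 ^ M)
    · exact NC_of hk (by omega) (by omega) (by omega) (by omega) g1 g2 hc
        (fun h3 => (hch.1 h3) hc)
    · exact NC_of hk (by omega) (by omega) (by omega) (by omega) g2 g1 (hch.2 hc) hc

theorem cnt_Z {k m a V : ℕ} (hk : 1 ≤ k) (ha : a < 2 ^ m) (H : IsZ k m a V) :
    ∃ M₀, ∀ M, M₀ ≤ M → cnt k M m a = 1 := by
  refine ⟨k + V + 2 + m, fun M hM => ?_⟩
  obtain ⟨x, hx, hd, hu⟩ := H.existsUnique (M - m)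
  have hMm : 2 ^ M = 2 ^ m * 2 ^ (M - m) := by
    rw [← pow_add]; congr 1; omega
  rw [cnt, card_eq_one]
  refine ⟨a + 2 ^ m * x, ?_⟩
  ext r
  simp only [mem_filter, mem_range, mem_singleton]
  constructor
  · rintro ⟨hr, hra, hNC⟩
    have h2 := Nat.div_add_mod r (2 ^ m)
    rw [hra, add_comm] at h2
    rw [← h2, NC_iff_Z hk ha H hM] at hNC
    have h3 := hu _ hNC
    have h4 : r / 2 ^ m < 2 ^ (M - m) := by
      rw [Nat.div_lt_iff_lt_mul (by positivity), mul_comm, ← hMm]; exact hr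
    rw [Nat.ModEq, Nat.mod_eq_of_lt h4, Nat.mod_eq_of_lt hx] at h3
    rw [← h2, h3]
  · rintro rfl
    refine ⟨?_, ?_, ?_⟩
    · rw [hMm]
      calc a + 2 ^ m * x < 2 ^ m + 2 ^ m * x := by omega
        _ = 2 ^ m * (x + 1) := by ring
        _ ≤ 2 ^ m * 2 ^ (M - m) := Nat.mul_le_mul_left _ hx
    · rw [Nat.add_mul_mod_self_left, Nat.mod_eq_of_lt ha]
    · rw [NC_iff_Z hk ha H hM]; exact hd

/-- trees of classes -/
inductive T where
  | C (V I : ℕ) : T
  | Z (V I : ℕ) : T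
  | N (l r : T) : T

/-- number of `Z` leaves -/
def T.zeros : T → ℕ
  | .C _ _ => 0
  | .Z _ _ => 1
  | .N l r => l.zeros + r.zeros

/-- the tree is a valid certificate below the class `a mod 2^m` -/
def T.Valid (k : ℕ) : T → ℕ → ℕ → Prop
  | .C V _, m, a => IsC k m a V
  | .Z V _, m, a => IsZ k m a V
  | .N l r, m, a => l.Valid k (m + 1) a ∧ r.Valid k (m + 1) (a + 2 ^ m)

theorem cnt_tree {k : ℕ} (hk : 1 ≤ k) (t : T) : ∀ {m a : ℕ}, a < 2 ^ m → t.Valid k m a →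
    ∃ M₀, ∀ M, M₀ ≤ M → cnt k M m a = t.zeros := by
  induction t with
  | C V I => intro m a _ h; exact cnt_C hk h
  | Z V I => intro m a ha h; exact cnt_Z hk ha h
  | N l r ihl ihr =>
    intro m a ha h
    obtain ⟨h1, h2⟩ := h
    have h9 : 2 ^ (m + 1) = 2 * 2 ^ m := by ring
    obtain ⟨M1, hM1⟩ := ihl (m := m + 1) (a := a) (by omega) h1
    obtain ⟨M2, hM2⟩ := ihr (m := m + 1) (a := a + 2 ^ m) (by omega) h2
    refine ⟨max M1 M2, fun M hM => ?_⟩
    rw [cnt_split ha, hM1 M (by omega), hM2 M (by omega)]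
    rfl

theorem NC_periodic (k M : ℕ) : Function.Periodic (fun r => NC k M r) (2 ^ M) := by
  intro r
  simp only [NC, eq_iff_iff]
  have : ∀ j, j ≡ r + 2 ^ M [MOD 2 ^ M] ↔ j ≡ r [MOD 2 ^ M] := by
    intro j; simp [Nat.ModEq]
  simp only [this]

theorem NN_ncard {k M : ℕ} (hk : k ≤ 2 ^ M) : (NN k M).ncard = cnt k M 0 0 := by
  have h1 : NN k M = ((Ico k (k + 2 ^ M)).filter (fun r => NC k M r) : Finset ℕ) := by
    ext n
    simp only [NN, Set.mem_setOf_eq, coe_filter, mem_Ico, and_assoc]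
    refine and_congr_right fun hn => and_congr_right fun hn2 => ?_
    rw [NC, not_iff_not]
    have hcls : ∀ j, j ∈ cls n (2 ^ M) ↔ 2 ^ M ≤ j ∧ j ≡ n [MOD 2 ^ M] := by
      intro j
      simp only [cls, Set.mem_setOf_eq, max_le_iff, and_assoc]
      constructor
      · rintro ⟨_, h2, h3⟩; exact ⟨h2, h3⟩
      · rintro ⟨h2, h3⟩
        refine ⟨?_, h2, h3⟩
        by_contra hcon
        have h4 : 2 ^ M ∣ n - j := (Nat.modEq_iff_dvd' (by omega)).1 h3
        have h5 := Nat.le_of_dvd (by omega) h4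
        omega
    constructor
    · rintro ⟨c, hc⟩
      refine ⟨c, fun j hj hjn => ?_⟩
      have : nu k j ∈ nu k '' cls n (2 ^ M) := ⟨j, (hcls j).2 ⟨hj, hjn⟩, rfl⟩
      rw [hc] at this
      exact this
    · rintro ⟨c, hc⟩
      refine ⟨c, ?_⟩
      ext y
      simp only [Set.mem_image, Set.mem_singleton_iff]
      constructor
      · rintro ⟨j, hj, rfl⟩
        exact hc j ((hcls j).1 hj).1 ((hcls j).1 hj).2
      · rintro rfl
        refine ⟨n + 2 ^ M, (hcls _).2 ⟨by omega, by simp [Nat.ModEq]⟩, ?_⟩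
        exact hc _ (by omega) (by simp [Nat.ModEq])
  rw [h1, Set.ncard_coe_finset, Nat.filter_Ico_card_eq_of_periodic _ _ _ (NC_periodic k M), cnt,
    Nat.count_eq_card_filter_range]
  congr 1
  ext r
  simp [Nat.mod_one]

theorem isMu_of_tree {k : ℕ} (hk : 1 ≤ k) {t : T} (h : t.Valid k 0 0) : IsMu k t.zeros := by
  obtain ⟨M₀, hM⟩ := cnt_tree hk t (m := 0) (a := 0) (by norm_num) h
  refine ⟨max M₀ k, fun M hM2 => ?_⟩
  have : M < 2 ^ M := Nat.lt_two_pow_self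
  rw [NN_ncard (by omega)]
  exact hM M (by omega)

end Pool.Agent.Q17.Stir
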