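import Mathlib
import Pool.Agent.Q17.Stir.Tree

/-!
# Kernel check of the certificates
-/

set_option autoImplicit false

namespace Pool.Agent.Q17.Stir

open Finset

/-- odd `j` with the binomials `C(k,j)` -/
def rowAux (k : ℕ) : ℕ → ℕ → ℕ → List (ℕ × ℕ)
  | 0, _, _ => []
  | f + 1, j, c =>
    if j % 2 = 1 then (j, c) :: rowAux k f (j + 1) (c * (k - j) / (j + 1))
    else rowAux k f (j + 1) (c * (k - j) / (j + 1))

theorem rowAux_sum (k : ℕ) (F : ℕ → ℕ → ℕ) (f : ℕ) : ∀ j,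
    ((rowAux k f j (k.choose j)).map (fun p => F p.1 p.2)).sum =
      ∑ i ∈ range f, if (j + i) % 2 = 1 then F (j + i) (k.choose (j + i)) else 0 := by
  induction f with
  | zero => intro j; simp [rowAux]
  | succ f ih =>
    intro j
    have h1 : k.choose j * (k - j) / (j + 1) = k.choose (j + 1) := by
      rw [← Nat.choose_succ_right_eq]
      exact Nat.mul_div_cancel _ (by omega)
    have h2 := ih (j + 1)
    rw [sum_range_succ']
    simp only [add_zero]
    have h3 : ∑ i ∈ range f, (if (j + (i + 1)) % 2 = 1 then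
          F (j + (i + 1)) (k.choose (j + (i + 1))) else 0) =
        ∑ i ∈ range f, (if (j + 1 + i) % 2 = 1 then
          F (j + 1 + i) (k.choose (j + 1 + i)) else 0) :=
      sum_congr rfl fun i _ => by rw [show j + (i + 1) = j + 1 + i by ring]
    rw [h3, ← h2]
    rw [rowAux, h1]
    split_ifs with hj
    · simp [add_comm]
    · simp

/-- `L` lists the odd `j ≤ k` with `C(k,j)` -/
def GoodRow (k : ℕ) (L : List (ℕ × ℕ)) : Prop :=
  ∀ F : ℕ → ℕ → ℕ, (L.map (fun p => F p.1 p.2)).sum = ∑ j ∈ od k, F j (k.choose j)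

theorem goodRow_of {k : ℕ} {L : List (ℕ × ℕ)} (h : rowAux k (k + 1) 0 1 = L) : GoodRow k L := by
  intro F
  have h1 := rowAux_sum k F (k + 1) 0
  rw [Nat.choose_zero_right, h] at h1
  rw [h1, od, sum_filter]
  simp

/-- the computed finite difference -/
def Dn (L : List (ℕ × ℕ)) (m a i : ℕ) : ℕ :=
  L.foldr (fun p s => p.2 * p.1 ^ a * (p.1 ^ 2 ^ m - 1) ^ i + s) 0

theorem Dn_eq {k : ℕ} {L : List (ℕ × ℕ)} (h : GoodRow k L) (m a i : ℕ) :
    Dn L m a i = D k m a i := by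
  have h1 := h (fun j c => c * j ^ a * (j ^ 2 ^ m - 1) ^ i)
  have h2 : Dn L m a i = (L.map (fun p => p.2 * p.1 ^ a * (p.1 ^ 2 ^ m - 1) ^ i)).sum := by
    rw [Dn, List.sum, List.foldr_map]
  rw [h2]
  exact h1

/-- check `D i ≡ 0 mod 2^b i` for `i = s, …, s + f - 1` -/
def chkR (L : List (ℕ × ℕ)) (m a : ℕ) (b : ℕ → ℕ) : ℕ → ℕ → Bool
  | 0, _ => true
  | f + 1, s => (Dn L m a s % 2 ^ b s == 0) && chkR L m a b f (s + 1)

theorem chkR_spec {L : List (ℕ × ℕ)} {m a : ℕ} {b : ℕ → ℕ} : ∀ {f s : ℕ},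
    chkR L m a b f s = true → ∀ i, s ≤ i → i < s + f → 2 ^ b i ∣ Dn L m a i := by
  intro f
  induction f with
  | zero => intro s _ i h1 h2; omega
  | succ f ih =>
    intro s h i h1 h2
    rw [chkR, Bool.and_eq_true, beq_iff_eq] at h
    rcases Nat.eq_or_lt_of_le h1 with h3 | h3
    · subst h3; exact Nat.dvd_of_mod_eq_zero h.1
    · exact ih h.2 i h3 (by omega)

/-- the certificate checker -/
def chk (L : List (ℕ × ℕ)) : T → ℕ → ℕ → Bool
  | .C V I, m, a => Nat.ble 1 m && (Dn L m a 0 % 2 ^ V == 0) &&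
      !(Dn L m a 0 % 2 ^ (V + 1) == 0) && Nat.ble (V + 1) ((I + 1) * (m + 2)) &&
      chkR L m a (fun _ => V + 1) I 1
  | .Z V I, m, a => Nat.ble 1 m && (Dn L m a 0 % 2 ^ V == 0) && (Dn L m a 1 % 2 ^ V == 0) &&
      !(Dn L m a 1 % 2 ^ (V + 1) == 0) && Nat.ble 1 I &&
      Nat.ble (V + 1 + Nat.log 2 (I + 1)) ((I + 1) * (m + 2)) &&
      chkR L m a (fun i => V + 1 + Nat.log 2 i) (I - 1) 2
  | .N l r, m, a => chk L l (m + 1) a && chk L r (m + 1) (a + 2 ^ m)

theorem log_bound {V m I : ℕ} (h : V + 1 + Nat.log 2 (I + 1) ≤ (I + 1) * (m + 2)) :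
    ∀ i, I + 1 ≤ i → V + 1 + Nat.log 2 i ≤ i * (m + 2) := by
  intro i hi
  induction i, hi using Nat.le_induction with
  | base => exact h
  | succ i hi ih =>
    have h1 : Nat.log 2 (i + 1) ≤ Nat.log 2 i + 1 := by
      rcases Nat.eq_zero_or_pos i with h0 | h0
      · subst h0; simp
      · have h2 : Nat.log 2 (i * 2) = Nat.log 2 i + 1 := Nat.log_mul_base (by norm_num) (by omega)
        rw [← h2]
        exact Nat.log_mono_right (by omega)
    have h3 : (i + 1) * (m + 2) = i * (m + 2) + (m + 2) := by ring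
    omega

theorem chk_spec {k : ℕ} {L : List (ℕ × ℕ)} (hL : GoodRow k L) (t : T) : ∀ {m a : ℕ},
    chk L t m a = true → t.Valid k m a := by
  induction t with
  | C V I =>
    intro m a h
    simp only [chk, Bool.and_eq_true, beq_iff_eq, Bool.not_eq_true', beq_eq_false_iff_ne,
      Nat.ble_eq] at h
    obtain ⟨⟨⟨⟨h1, h2⟩, h3⟩, h4⟩, h5⟩ := h
    have h6 := chkR_spec h5
    simp only [Dn_eq hL] at h2 h3 h6
    refine ⟨Nat.dvd_of_mod_eq_zero h2, fun hd => h3 (Nat.mod_eq_zero_of_dvd hd), fun i hi => ?_⟩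
    rcases Nat.lt_or_ge i (1 + I) with h7 | h7
    · exact h6 i hi h7
    · refine (pow_dvd_pow 2 ?_).trans (D_dvd h1)
      calc V + 1 ≤ (I + 1) * (m + 2) := h4
        _ ≤ i * (m + 2) := Nat.mul_le_mul_right _ (by omega)
        _ = (m + 2) * i := by ring
  | Z V I =>
    intro m a h
    simp only [chk, Bool.and_eq_true, beq_iff_eq, Bool.not_eq_true', beq_eq_false_iff_ne,
      Nat.ble_eq] at h
    obtain ⟨⟨⟨⟨⟨⟨h1, h2⟩, h3⟩, h3'⟩, hI⟩, h4⟩, h5⟩ := h
    have h6 := chkR_spec h5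
    simp only [Dn_eq hL] at h2 h3 h3' h6
    refine ⟨Nat.dvd_of_mod_eq_zero h2, Nat.dvd_of_mod_eq_zero h3,
      fun hd => h3' (Nat.mod_eq_zero_of_dvd hd), fun i hi => ?_⟩
    rcases Nat.lt_or_ge i (2 + (I - 1)) with h7 | h7
    · exact h6 i hi h7
    · refine (pow_dvd_pow 2 ?_).trans (D_dvd h1)
      calc V + 1 + Nat.log 2 i ≤ i * (m + 2) := log_bound h4 i (by omega)
        _ = (m + 2) * i := by ring
  | N l r ihl ihr =>
    intro m a h
    rw [chk, Bool.and_eq_true] at h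
    exact ⟨ihl h.1, ihr h.2⟩

theorem isMu_of_chk {k : ℕ} (hk : 1 ≤ k) (L : List (ℕ × ℕ)) (hL : rowAux k (k + 1) 0 1 = L)
    (t : T) (h : chk L t 0 0 = true) : IsMu k t.zeros :=
  isMu_of_tree hk (chk_spec (goodRow_of hL) t h)

end Pool.Agent.Q17.Stir
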