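import Mathlib
import Pool.Agent.Q17.Stir.Check

/-!
# Certificates for `k = 70` and `k = 71`
-/

set_option autoImplicit false

namespace Pool.Agent.Q17.Stir

/-- the odd `j ≤ 70` with `C(70,j)` -/
def row70 : List (ℕ × ℕ) := [(1, 70), (3, 54740), (5, 12103014), (7, 1198774720), (9,
  65033528560), (11, 2163842859360), (13, 47465835030320), (15, 721480692460864), (17,
  7877932561061640), (19, 63484158299081520), (21, 385439532530137800), (23,
  1791608261879217600), (25, 6455761770304780752), (27, 18208558839321176480), (29,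
  40498346384007444240), (31, 71416438784701299520), (33, 100226479430802391940), (35,
  112186277816662845432), (37, 100226479430802391940), (39, 71416438784701299520), (41,
  40498346384007444240), (43, 18208558839321176480), (45, 6455761770304780752), (47,
  1791608261879217600), (49, 385439532530137800), (51, 63484158299081520), (53,
  7877932561061640), (55, 721480692460864), (57, 47465835030320), (59, 2163842859360), (61,
  65033528560), (63, 1198774720), (65, 12103014), (67, 54740), (69, 70)]

/-- certificate for `k = 70` -/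
def tree70 : T := (.N (.N (.N (.N (.N (.Z 68 10) (.Z 68 10)) (.N (.Z 68 10) (.Z 68 10))) (.N (.N
  (.N (.N (.C 73 8) (.N (.N (.Z 78 7) (.Z 78 7)) (.C 75 7))) (.C 71 8)) (.Z 70 10)) (.N (.Z 69
  10) (.Z 69 10)))) (.N (.N (.N (.Z 67 10) (.Z 67 10)) (.N (.Z 67 10) (.Z 67 10))) (.N (.N (.Z
  67 10) (.Z 67 10)) (.N (.Z 67 10) (.Z 67 10))))) (.N (.N (.N (.N (.Z 68 10) (.Z 68 10)) (.N
  (.Z 68 10) (.Z 68 10))) (.N (.N (.Z 69 10) (.Z 69 10)) (.N (.N (.C 71 8) (.N (.N (.Z 76 7) (.Z
  76 7)) (.C 73 8))) (.Z 70 10)))) (.N (.N (.N (.Z 67 10) (.Z 67 10)) (.N (.Z 67 10) (.Z 67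
  10))) (.N (.N (.Z 67 10) (.Z 67 10)) (.N (.Z 67 10) (.Z 67 10))))))

/-- the odd `j ≤ 71` with `C(71,j)` -/
def row71 : List (ℕ × ℕ) := [(1, 71), (3, 57155), (5, 13019909), (7, 1329890705), (9,
  74473879480), (11, 2560547383576), (13, 58104729088840), (15, 914734449370024), (17,
  10358022441395860), (19, 86680293062207460), (21, 547324136192795676), (23,
  2650087220696342700), (25, 9964327949818248552), (27, 29381992672540989320), (29,
  68461490315822108120), (31, 126764178842844806648), (33, 187265264199657100730), (35,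
  221256270138418389602), (37, 209296471752557936110), (39, 158455223553556008310), (41,
  95846086442150951368), (43, 46171702771135840360), (45, 17629195603524593592), (47,
  5300174441392685400), (49, 1243918491347262900), (51, 225368761961739396), (53,
  31074067324187580), (55, 3201570572795084), (57, 240719591939480), (59, 12802736917880), (61,
  461738052776), (63, 10639125640), (65, 143218999), (67, 971635), (69, 2485), (71, 1)]

/-- certificate for `k = 71` -/
def tree71 : T := (.N (.N (.N (.N (.N (.Z 69 10) (.Z 69 10)) (.N (.Z 69 10) (.Z 69 10))) (.N (.N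
  (.Z 69 10) (.Z 69 10)) (.N (.Z 69 10) (.Z 69 10)))) (.N (.N (.N (.Z 70 10) (.Z 70 10)) (.N (.Z
  70 10) (.Z 70 10))) (.N (.N (.Z 71 10) (.Z 71 10)) (.N (.N (.C 73 9) (.N (.N (.C 79 7) (.C 77
  7)) (.C 75 8))) (.Z 72 10))))) (.N (.N (.N (.N (.Z 68 10) (.Z 68 10)) (.N (.Z 68 10) (.Z 68
  10))) (.N (.N (.Z 69 10) (.Z 69 10)) (.N (.N (.C 71 8) (.N (.N (.Z 76 7) (.Z 76 7)) (.C 73
  8))) (.Z 70 10)))) (.N (.N (.N (.Z 67 10) (.Z 67 10)) (.N (.Z 67 10) (.Z 67 10))) (.N (.N (.Z
  67 10) (.Z 67 10)) (.N (.Z 67 10) (.Z 67 10))))))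

theorem row70_eq : rowAux 70 71 0 1 = row70 := by decide +kernel
theorem row71_eq : rowAux 71 72 0 1 = row71 := by decide +kernel

theorem chk70 : chk row70 tree70 0 0 = true := by decide +kernel
theorem chk71 : chk row71 tree71 0 0 = true := by decide +kernel

theorem isMu70 : IsMu 70 34 := isMu_of_chk (by norm_num) row70 row70_eq tree70 chk70
theorem isMu71 : IsMu 71 32 := isMu_of_chk (by norm_num) row71 row71_eq tree71 chk71

end Pool.Agent.Q17.Stir
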